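import Mathlib

set_option autoImplicit false

namespace Pool.Agent.H215R3.FC

open PowerSeries

/-- The power series ring `k[[y]][[x]]` over the field with two elements. -/
abbrev A := PowerSeries (PowerSeries (ZMod 2))

noncomputable def x : A := PowerSeries.X
noncomputable def y : A := PowerSeries.C (PowerSeries.X)

noncomputable def c0 : A →+* ZMod 2 :=
  (constantCoeff (R := ZMod 2)).comp (constantCoeff (R := PowerSeries (ZMod 2)))

noncomputable def dx : A →+ ZMod 2 where
  toFun f := constantCoeff (coeff 1 f)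
  map_zero' := by simp
  map_add' := by intro f g; simp

noncomputable def dy : A →+ ZMod 2 where
  toFun f := coeff 1 (constantCoeff f)
  map_zero' := by simp
  map_add' := by intro f g; simp

lemma c0_apply (f : A) : c0 f = constantCoeff (constantCoeff f) := rfl
lemma dx_apply (f : A) : dx f = constantCoeff (coeff 1 f) := rfl
lemma dy_apply (f : A) : dy f = coeff 1 (constantCoeff f) := rfl

lemma dx_mul (f g : A) : dx (f * g) = dx f * c0 g + dx g * c0 f := by
  simp only [dx_apply, c0_apply, coeff_one_mul, map_add, map_mul]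

lemma dy_mul (f g : A) : dy (f * g) = dy f * c0 g + dy g * c0 f := by
  simp only [dy_apply, c0_apply, coeff_one_mul, map_mul]

lemma dx_one : dx 1 = 0 := by
  simp [dx_apply, PowerSeries.coeff_one]

lemma dy_one : dy 1 = 0 := by
  simp [dy_apply, PowerSeries.coeff_one]

@[simp] lemma c0_x : c0 x = 0 := by simp [c0_apply, x]
@[simp] lemma c0_y : c0 y = 0 := by simp [c0_apply, y]
@[simp] lemma dx_x : dx x = 1 := by simp [dx_apply, x]
@[simp] lemma dx_y : dx y = 0 := by simp [dx_apply, y]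
@[simp] lemma dy_x : dy x = 0 := by simp [dy_apply, x]
@[simp] lemma dy_y : dy y = 1 := by simp [dy_apply, y]

/-- constants -/
noncomputable def cc : ZMod 2 →+* A := (PowerSeries.C (R := PowerSeries (ZMod 2))).comp PowerSeries.C

@[simp] lemma c0_cc (a : ZMod 2) : c0 (cc a) = a := by simp [c0_apply, cc]
@[simp] lemma dx_cc (a : ZMod 2) : dx (cc a) = 0 := by simp [dx_apply, cc]
@[simp] lemma dy_cc (a : ZMod 2) : dy (cc a) = 0 := by simp [dy_apply, cc]

lemma decomp (f : A) (hf : c0 f = 0) : ∃ a b : A, f = x * a + y * b := by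
  have h1 := PowerSeries.eq_X_mul_shift_add_const f
  have h2 := PowerSeries.eq_X_mul_shift_add_const (constantCoeff f)
  rw [c0_apply] at hf
  rw [hf, map_zero, add_zero] at h2
  refine ⟨PowerSeries.mk fun p => coeff (p + 1) f,
    PowerSeries.C (PowerSeries.mk fun p => coeff (p + 1) (constantCoeff f)), ?_⟩
  rw [y, ← map_mul, ← h2]
  exact h1

/-- If `x^q u = y^q v` with `q > 0`, then `u` has zero constant coefficient. -/
lemma c0_of_eq {q : ℕ} (hq : 0 < q) {u v : A} (h : x ^ q * u = y ^ q * v) :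
    c0 u = 0 ∧ c0 v = 0 := by
  constructor
  · have h1 := congrArg (fun f => constantCoeff (coeff q f)) h
    simp only [x, y, ← map_pow, coeff_C_mul, map_mul] at h1
    rw [coeff_X_pow_mul' , if_pos le_rfl, Nat.sub_self] at h1
    rw [c0_apply]
    rw [← coeff_zero_eq_constantCoeff_apply u, h1]
    simp [hq.ne']
  · have h1 := congrArg (fun f => coeff q (constantCoeff f)) h
    simp only [x, y, ← map_pow, map_mul] at h1
    simp only [constantCoeff_C] at h1
    rw [coeff_X_pow_mul' , if_pos le_rfl, Nat.sub_self] at h1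
    rw [c0_apply]
    rw [← coeff_zero_eq_constantCoeff_apply (constantCoeff v), ← h1]
    simp [hq.ne']

lemma isUnit_of_c0 (f : A) (hf : c0 f ≠ 0) : IsUnit f := by
  rw [PowerSeries.isUnit_iff_constantCoeff, PowerSeries.isUnit_iff_constantCoeff]
  exact isUnit_iff_ne_zero.2 hf

/-- The functional defining the ring `R`. -/
noncomputable def theta (f : Fin 3 → A) : ZMod 2 := dx (f 0) - dx (f 1) + dy (f 1) - dy (f 2)

/-- The ring `R`. -/
noncomputable def R : Subalgebra A (Fin 3 → A) where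
  carrier := {f | c0 (f 1) = c0 (f 0) ∧ c0 (f 2) = c0 (f 0) ∧ theta f = 0}
  mul_mem' := by
    rintro f g ⟨h1, h2, h3⟩ ⟨h4, h5, h6⟩
    refine ⟨?_, ?_, ?_⟩
    · simp [h1, h4]
    · simp [h2, h5]
    · simp only [theta, Pi.mul_apply, dx_mul, dy_mul, h1, h2, h4, h5] at h3 h6 ⊢
      linear_combination (c0 (g 0)) * h3 + (c0 (f 0)) * h6
  add_mem' := by
    rintro f g ⟨h1, h2, h3⟩ ⟨h4, h5, h6⟩
    refine ⟨?_, ?_, ?_⟩
    · simp [h1, h4]
    · simp [h2, h5]
    · simp only [theta, Pi.add_apply, map_add] at h3 h6 ⊢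
      linear_combination h3 + h6
  algebraMap_mem' := by
    intro r
    refine ⟨?_, ?_, ?_⟩
    · simp
    · simp
    · simp [theta]

lemma mem_R (f : Fin 3 → A) :
    f ∈ R ↔ c0 (f 1) = c0 (f 0) ∧ c0 (f 2) = c0 (f 0) ∧ theta f = 0 := Iff.rfl

instance : IsNoetherianRing R := by
  have h1 : IsNoetherian A (Fin 3 → A) := inferInstance
  have h2 : IsNoetherian A R := isNoetherian_submodule' (Subalgebra.toSubmodule R)
  exact isNoetherian_of_tower A h2

lemma isUnit_R (f : R) (hf : c0 (f.1 0) ≠ 0) : IsUnit f := by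
  obtain ⟨h1, h2, h3⟩ := f.2
  have hu : ∀ i, IsUnit (f.1 i) := by
    intro i
    apply isUnit_of_c0
    fin_cases i
    · exact hf
    · change c0 (f.1 1) ≠ 0
      rwa [h1]
    · change c0 (f.1 2) ≠ 0
      rwa [h2]
  choose g hg using fun i => (hu i).exists_right_inv
  have hc : ∀ i, c0 (f.1 i) * c0 (g i) = 1 := by
    intro i; rw [← map_mul, hg, map_one]
  have hx : ∀ i, dx (f.1 i) * c0 (g i) + dx (g i) * c0 (f.1 i) = 0 := by
    intro i; rw [← dx_mul, hg, dx_one]
  have hy : ∀ i, dy (f.1 i) * c0 (g i) + dy (g i) * c0 (f.1 i) = 0 := by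
    intro i; rw [← dy_mul, hg, dy_one]
  have hg1 : c0 (g 1) = c0 (g 0) := by
    have := hc 1
    rw [h1] at this
    exact mul_left_cancel₀ hf (this.trans (hc 0).symm)
  have hg2 : c0 (g 2) = c0 (g 0) := by
    have := hc 2
    rw [h2] at this
    exact mul_left_cancel₀ hf (this.trans (hc 0).symm)
  have hgR : g ∈ R := by
    refine ⟨hg1, hg2, ?_⟩
    apply mul_left_cancel₀ hf
    have e1 := hx 0
    have e2 := hx 1
    have e3 := hy 1
    have e4 := hy 2
    simp only [theta] at h3 ⊢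
    rw [h1, hg1] at e2 e3
    rw [h2, hg2] at e4
    linear_combination e1 - e2 + e3 - e4 - c0 (g 0) * h3
  refine IsUnit.of_mul_eq_one (⟨g, hgR⟩ : R) ?_
  apply Subtype.ext
  funext i
  exact hg i

instance : Nontrivial R := inferInstance

instance : IsLocalRing R := by
  refine IsLocalRing.of_isUnit_or_isUnit_one_sub_self ?_
  intro f
  by_cases hf : c0 (f.1 0) = 0
  · right
    apply isUnit_R
    simp [hf]
  · left
    exact isUnit_R f hf

lemma mem_maximalIdeal_R (f : R) : f ∈ IsLocalRing.maximalIdeal R ↔ c0 (f.1 0) = 0 := by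
  rw [IsLocalRing.mem_maximalIdeal, mem_nonunits_iff]
  constructor
  · intro h
    by_contra hc
    exact h (isUnit_R f hc)
  · intro h hu
    obtain ⟨g, hg⟩ := hu.exists_right_inv
    have := congrArg (fun z : R => c0 (z.1 0)) hg
    simp [h] at this

/-- the parameters -/
noncomputable def X0 : R := algebraMap A R x
noncomputable def Y0 : R := algebraMap A R y

lemma X0_apply (i : Fin 3) : X0.1 i = x := rfl
lemma Y0_apply (i : Fin 3) : Y0.1 i = y := rfl

/-- Key lemma: `m_S^2` is contained in `(x, y) R`. -/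
lemma key (r : Fin 3 → A) (a b : Fin 3 → A) (ha : ∀ i, c0 (a i) = 0) (hb : ∀ i, c0 (b i) = 0)
    (hr : ∀ i, r i = x * a i + y * b i) :
    ∃ u v : R, r = (X0 * u + Y0 * v : R).1 := by
  set c : Fin 3 → A := ![cc (theta b), 0, cc (theta a)] with hc
  have hA : (fun i => a i + c i * y) ∈ R := by
    refine ⟨?_, ?_, ?_⟩
    · simp [ha]
    · simp [ha]
    · simp only [theta, map_add, dx_mul, dy_mul, hc]
      simp
  have hB : (fun i => b i - c i * x) ∈ R := by
    refine ⟨?_, ?_, ?_⟩
    · simp [hb]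
    · simp [hb]
    · simp only [theta, map_sub, dx_mul, dy_mul, hc]
      simp
      ring
  refine ⟨⟨_, hA⟩, ⟨_, hB⟩, ?_⟩
  funext i
  rw [hr i]
  change x * a i + y * b i = x * (a i + c i * y) + y * (b i - c i * x)
  ring

lemma range_eq : Set.range ![X0, Y0] = {X0, Y0} := by
  simp [Matrix.range_cons, Set.pair_comm]

lemma sq_mem (r : R) (hr : c0 (r.1 0) = 0) : r ^ 2 ∈ Ideal.span (Set.range ![X0, Y0]) := by
  obtain ⟨h1, h2, h3⟩ := r.2
  have h0 : ∀ i, c0 (r.1 i) = 0 := by
    intro i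
    fin_cases i
    · exact hr
    · exact h1.trans hr
    · exact h2.trans hr
  choose a b hab using fun i => decomp (r.1 i) (h0 i)
  obtain ⟨u, v, huv⟩ := key (fun i => r.1 i ^ 2) (fun i => a i * r.1 i) (fun i => b i * r.1 i)
    (fun i => by rw [map_mul, h0, mul_zero]) (fun i => by rw [map_mul, h0, mul_zero])
    (fun i => by
      have := hab i
      calc r.1 i ^ 2 = (x * a i + y * b i) * r.1 i := by rw [← this, sq]
        _ = _ := by ring)
  have : r ^ 2 = X0 * u + Y0 * v := Subtype.ext huv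
  rw [this, range_eq]
  exact Ideal.add_mem _ (Ideal.mul_mem_right _ _ (Ideal.subset_span (by simp)))
    (Ideal.mul_mem_right _ _ (Ideal.subset_span (by simp)))

lemma radical_eq : (Ideal.span (Set.range ![X0, Y0])).radical = IsLocalRing.maximalIdeal R := by
  apply le_antisymm
  · rw [(IsLocalRing.maximalIdeal.isMaximal R).isPrime.radical_le_iff, Ideal.span_le, range_eq]
    rintro z (rfl | rfl)
    · rw [SetLike.mem_coe, mem_maximalIdeal_R, X0_apply, c0_x]
    · rw [SetLike.mem_coe, mem_maximalIdeal_R, Y0_apply, c0_y]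
  · intro r hr
    rw [mem_maximalIdeal_R] at hr
    exact ⟨2, sq_mem r hr⟩

lemma dim_A : (2 : WithBot ℕ∞) ≤ ringKrullDim A := by
  have h0 : ringKrullDim (ZMod 2) = 0 := ringKrullDim_eq_zero_of_field _
  have h1 := ringKrullDim_succ_le_ringKrullDim_powerseries (R := ZMod 2)
  have h2 := ringKrullDim_succ_le_ringKrullDim_powerseries (R := PowerSeries (ZMod 2))
  rw [h0] at h1
  have h3 : (0 : WithBot ℕ∞) + 1 + 1 ≤ ringKrullDim (PowerSeries (ZMod 2)) + 1 := by gcongr
  refine le_trans ?_ (h3.trans h2)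
  norm_num

lemma dim_R_ge : (2 : WithBot ℕ∞) ≤ ringKrullDim R := by
  refine dim_A.trans ?_
  refine ringKrullDim_le_of_surjective
    ((Pi.evalRingHom (fun _ : Fin 3 => A) 0).comp (R.subtype : R →+* (Fin 3 → A))) ?_
  intro a
  exact ⟨algebraMap A R a, rfl⟩

lemma dim_R_le : ringKrullDim R ≤ (2 : WithBot ℕ∞) := by
  rw [← IsLocalRing.maximalIdeal_height_eq_ringKrullDim (R := R)]
  have h1 : IsLocalRing.maximalIdeal R ∈ (Ideal.span ({X0, Y0} : Set R)).minimalPrimes := by
    have hp : (IsLocalRing.maximalIdeal R).IsPrime :=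
      (IsLocalRing.maximalIdeal.isMaximal R).isPrime
    rw [← range_eq, ← Ideal.radical_minimalPrimes, radical_eq,
      Ideal.minimalPrimes_eq_subsingleton_self]
    rfl
  have h3 := Ideal.height_le_card_of_mem_minimalPrimes_span (Set.toFinite _) h1
  have h4 : ({X0, Y0} : Set R).ncard ≤ 2 := by
    refine (Set.ncard_insert_le _ _).trans ?_
    rw [Set.ncard_singleton]
  have h5 : (IsLocalRing.maximalIdeal R).height ≤ ((2 : ℕ) : ℕ∞) :=
    h3.trans (by exact_mod_cast h4)
  exact WithBot.coe_le_coe.2 h5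

lemma dim_R : ringKrullDim R = ((2 : ℕ) : WithBot ℕ∞) :=
  le_antisymm dim_R_le dim_R_ge

instance : CharP A 2 := by
  refine charP_of_injective_ringHom (f := cc) ?_ 2
  exact cc.injective

instance : CharP R 2 := by
  refine charP_of_injective_algebraMap (R := A) (A := R) ?_ 2
  intro a b h
  exact congrFun (congrArg Subtype.val h) 0

lemma map_frob (e : ℕ) (a b : R) :
    Ideal.map (iterateFrobenius R 2 e) (Ideal.span {a, b}) =
      Ideal.span {a ^ 2 ^ e, b ^ 2 ^ e} := by
  rw [Ideal.map_span, Set.image_pair]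
  rfl

lemma frobClosed (r : R) (e : ℕ)
    (h : r ^ (2 ^ e) ∈ Ideal.map (iterateFrobenius R 2 e) (Ideal.span (Set.range ![X0, Y0]))) :
    r ∈ Ideal.span (Set.range ![X0, Y0]) := by
  rw [range_eq, map_frob, Ideal.mem_span_pair] at h
  obtain ⟨u, v, huv⟩ := h
  have hq : 0 < 2 ^ e := by positivity
  have hi : ∀ i, u.1 i * x ^ 2 ^ e + v.1 i * y ^ 2 ^ e = r.1 i ^ 2 ^ e := fun i =>
    congrFun (congrArg Subtype.val huv) i
  have hr0 : ∀ i, c0 (r.1 i) = 0 := by
    intro i
    have := congrArg c0 (hi i)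
    simp only [map_add, map_mul, map_pow, c0_x, c0_y, zero_pow hq.ne', mul_zero, add_zero] at this
    exact (pow_eq_zero_iff hq.ne').1 this.symm
  choose a b hab using fun i => decomp (r.1 i) (hr0 i)
  have hcmp : ∀ i, c0 (a i) = c0 (u.1 i) ∧ c0 (b i) = c0 (v.1 i) := by
    intro i
    have h1 : x ^ 2 ^ e * (a i ^ 2 ^ e - u.1 i) = y ^ 2 ^ e * (v.1 i - b i ^ 2 ^ e) := by
      have h2 := hi i
      rw [hab i, add_pow_char_pow, mul_pow, mul_pow] at h2
      linear_combination - h2
    obtain ⟨h3, h4⟩ := c0_of_eq hq h1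
    have hz : ∀ z : ZMod 2, z ^ 2 ^ e = z := fun z => ZMod.pow_card_pow z
    rw [map_sub, map_pow, hz] at h3 h4
    exact ⟨by linear_combination h3, by linear_combination - h4⟩
  obtain ⟨hu1, hu2, -⟩ := u.2
  obtain ⟨hv1, hv2, -⟩ := v.2
  set α := c0 (u.1 0)
  set β := c0 (v.1 0)
  have hα : ∀ i, c0 (a i) = α := by
    intro i
    rw [(hcmp i).1]
    fin_cases i
    · rfl
    · exact hu1
    · exact hu2
  have hβ : ∀ i, c0 (b i) = β := by
    intro i
    rw [(hcmp i).2]
    fin_cases i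
    · rfl
    · exact hv1
    · exact hv2
  obtain ⟨s, t, hst⟩ := key (fun i => r.1 i - (cc α * x + cc β * y)) (fun i => a i - cc α)
    (fun i => b i - cc β) (fun i => by simp [hα]) (fun i => by simp [hβ])
    (fun i => by rw [hab i]; ring)
  have hr : r = X0 * (s + algebraMap A R (cc α)) + Y0 * (t + algebraMap A R (cc β)) := by
    apply Subtype.ext
    funext i
    have h5 := congrFun hst i
    change r.1 i - (cc α * x + cc β * y) = x * s.1 i + y * t.1 i at h5
    change r.1 i = x * (s.1 i + cc α) + y * (t.1 i + cc β)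
    linear_combination h5
  rw [hr, range_eq]
  exact Ideal.add_mem _ (Ideal.mul_mem_right _ _ (Ideal.subset_span (by simp)))
    (Ideal.mul_mem_right _ _ (Ideal.subset_span (by simp)))

/-- The element `(x^3, 0, 0)`. -/
noncomputable def w : R := ⟨![x ^ 3, 0, 0], by
  refine ⟨?_, ?_, ?_⟩
  · simp
  · simp
  · simp [theta, pow_succ, dx_mul]⟩

/-- The element `(x^2, 0, 0)`. -/
noncomputable def w' : R := ⟨![x ^ 2, 0, 0], by
  refine ⟨?_, ?_, ?_⟩
  · simp
  · simp
  · simp [theta, pow_succ, dx_mul]⟩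

lemma w_pow : w ^ 2 = X0 ^ 4 * w' := by
  apply Subtype.ext
  funext i
  change w.1 i ^ 2 = x ^ 4 * w'.1 i
  fin_cases i
  · change (x ^ 3) ^ 2 = x ^ 4 * x ^ 2
    ring
  · change (0 : A) ^ 2 = x ^ 4 * 0
    ring
  · change (0 : A) ^ 2 = x ^ 4 * 0
    ring

lemma w_notMem : w ∉ Ideal.span {X0 ^ 2, Y0 ^ 2} := by
  rw [Ideal.mem_span_pair]
  rintro ⟨u, v, h⟩
  have hi : ∀ i, u.1 i * x ^ 2 + v.1 i * y ^ 2 = w.1 i := fun i =>
    congrFun (congrArg Subtype.val h) i
  have h0 : x ^ 2 * (u.1 0 - x) = y ^ 2 * (- v.1 0) := by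
    have := hi 0
    change u.1 0 * x ^ 2 + v.1 0 * y ^ 2 = x ^ 3 at this
    linear_combination this
  have h1 : x ^ 2 * (u.1 1) = y ^ 2 * (- v.1 1) := by
    have := hi 1
    change u.1 1 * x ^ 2 + v.1 1 * y ^ 2 = 0 at this
    linear_combination this
  have h2 : x ^ 2 * (u.1 2) = y ^ 2 * (- v.1 2) := by
    have := hi 2
    change u.1 2 * x ^ 2 + v.1 2 * y ^ 2 = 0 at this
    linear_combination this
  have key2 : ∀ s t : A, x ^ 2 * s = y ^ 2 * t → dx s = 0 ∧ dy s = 0 := by
    intro s t hst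
    constructor
    · have h1 := congrArg (fun f => constantCoeff (coeff 3 f)) hst
      simp only [x, y, ← map_pow, coeff_C_mul, map_mul] at h1
      rw [coeff_X_pow_mul' , if_pos (by norm_num)] at h1
      rw [dx_apply, h1]
      simp
    · have h1 := congrArg (fun f => coeff 1 (coeff 2 f)) hst
      simp only [x, y, ← map_pow, coeff_C_mul] at h1
      rw [coeff_X_pow_mul' , if_pos (by norm_num)] at h1
      rw [dy_apply, ← coeff_zero_eq_constantCoeff_apply s, h1, coeff_X_pow_mul', if_neg (by norm_num)]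
  obtain ⟨-, -, h3⟩ := u.2
  have e0 := (key2 _ _ h0).1
  have e1 := key2 _ _ h1
  have e2 := (key2 _ _ h2).2
  rw [map_sub, dx_x] at e0
  rw [theta, e1.1, e1.2, e2] at h3
  have : dx (u.1 0) = 1 := by linear_combination e0
  rw [this] at h3
  simp at h3

end Pool.Agent.H215R3.FC
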